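import Pool.Agent.W564.SC.Defs3

/-! Project SC, part STEP: uniform bounds for one map between two good charts. -/

set_option autoImplicit false

open scoped Manifold ContDiff Topology
open Filter Set Metric

universe u

namespace Pool.Agent.W451.SC

open Pool.Agent.H718R2.G Pool.Agent.W564.SC

/-- the conclusion at the point `x₀` -/
structure Good {n : ℕ} (T : Set (V n)) (g : V n → V n) (K ρ : ℝ) (x₀ : V n) : Prop where
  loc : ∀ x ∈ ball x₀ ρ, x ∈ T ∧ ‖g x‖ ≤ 3 / 4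
  tame : TameAt n K ρ g x₀

lemma Good.mono {n : ℕ} {T : Set (V n)} {g : V n → V n} {K K' ρ ρ' : ℝ} {x₀ : V n}
    (h : Good T g K ρ x₀) (hK : K ≤ K') (hρ : ρ' ≤ ρ) : Good T g K' ρ' x₀ := by
  have hs : ball x₀ ρ' ⊆ ball x₀ ρ := ball_subset_ball hρ
  refine ⟨fun x hx => h.loc x (hs hx), fun x hx => h.tame.diff x (hs hx),
    fun x hx => (h.tame.bd x (hs hx)).trans hK, fun x hx x' hx' => ?_⟩
  exact (h.tame.lip x (hs hx) x' (hs hx')).trans
    (mul_le_mul_of_nonneg_right hK (norm_nonneg _))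

lemma compact_good {n : ℕ} {T : Set (V n)} {g : V n → V n} {Q : Set (V n)} (hQ : IsCompact Q)
    (hT : ∀ x ∈ Q, ∀ᶠ x' in 𝓝 x, x' ∈ T) (hg : ∀ x ∈ Q, ContDiffAt ℝ 2 g x)
    (hn : ∀ x ∈ Q, ‖g x‖ ≤ 1 / 2) :
    ∃ K ρ : ℝ, 1 ≤ K ∧ 0 < ρ ∧ ρ ≤ 1 / 8 ∧ ∀ x ∈ Q, Good T g K ρ x := by
  refine hQ.induction_on (p := fun S => ∃ K ρ : ℝ, 1 ≤ K ∧ 0 < ρ ∧ ρ ≤ 1 / 8 ∧
    ∀ x ∈ S, Good T g K ρ x) ?_ ?_ ?_ ?_
  · exact ⟨1, 1 / 8, le_refl _, by norm_num, le_refl _, fun x hx => absurd hx (notMem_empty x)⟩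
  · rintro s t hst ⟨K, ρ, h1, h2, h3, h4⟩
    exact ⟨K, ρ, h1, h2, h3, fun x hx => h4 x (hst hx)⟩
  · rintro s t ⟨K, ρ, h1, h2, h3, h4⟩ ⟨K', ρ', h1', h2', h3', h4'⟩
    refine ⟨max K K', min ρ ρ', h1.trans (le_max_left _ _), lt_min h2 h2',
      (min_le_left _ _).trans h3, ?_⟩
    rintro x (hx | hx)
    · exact (h4 x hx).mono (le_max_left _ _) (min_le_left _ _)
    · exact (h4' x hx).mono (le_max_right _ _) (min_le_right _ _)
  · intro x₀ hx₀
    have hc := hg x₀ hx₀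
    have e1 := hT x₀ hx₀
    have e2 : ∀ᶠ x in 𝓝 x₀, ‖g x‖ < 3 / 4 := by
      have h := hc.continuousAt.norm
      exact h.eventually_lt_const (by have := hn x₀ hx₀; linarith)
    have e3 : ∀ᶠ x in 𝓝 x₀, ContDiffAt ℝ 2 g x := hc.eventually (by simp)
    have hd : ContDiffAt ℝ 1 (fderiv ℝ g) x₀ := hc.fderiv_right (by norm_num)
    have e4 : ∀ᶠ x in 𝓝 x₀, ‖fderiv ℝ g x‖ < ‖fderiv ℝ g x₀‖ + 1 :=
      hd.continuousAt.norm.eventually_lt_const (by linarith)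
    obtain ⟨L, t, ht, hL⟩ := hd.exists_lipschitzOnWith
    have e5 : ∀ᶠ x in 𝓝 x₀, x ∈ t := ht
    obtain ⟨ε, hε, hball⟩ := Metric.eventually_nhds_iff_ball.mp
      (e1.and (e2.and (e3.and (e4.and e5))))
    refine ⟨ball x₀ (min (ε / 2) (1 / 8)), mem_nhdsWithin_of_mem_nhds
      (ball_mem_nhds _ (lt_min (by linarith) (by norm_num))), ?_⟩
    refine ⟨max 1 (max L (‖fderiv ℝ g x₀‖ + 1)), min (ε / 2) (1 / 8), le_max_left _ _,
      lt_min (by linarith) (by norm_num), min_le_right _ _, ?_⟩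
    intro y hy
    have hsub : ball y (min (ε / 2) (1 / 8)) ⊆ ball x₀ ε := by
      apply ball_subset_ball'
      rw [mem_ball] at hy
      have := min_le_left (ε / 2) (1 / 8)
      linarith
    refine ⟨fun x hx => ?_, fun x hx => ?_, fun x hx => ?_, fun x hx x' hx' => ?_⟩
    · have h := hball x (hsub hx)
      exact ⟨h.1, h.2.1.le⟩
    · have h := hball x (hsub hx)
      exact h.2.2.1.differentiableAt (by norm_num)
    · have h := hball x (hsub hx)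
      exact h.2.2.2.1.le.trans ((le_max_right _ _).trans (le_max_right _ _))
    · have h := hball x (hsub hx)
      have h' := hball x' (hsub hx')
      have h2 := hL.norm_sub_le h.2.2.2.2 h'.2.2.2.2
      refine h2.trans (mul_le_mul_of_nonneg_right ?_ (norm_nonneg _))
      exact (le_max_left _ _).trans (le_max_right _ _)

theorem step : S_STEP.{u} := by
  intro n N _ _ _ _ _ r hr G χ₁ χ₂ z₁ z₂ hχ₁ hχ₂
  set g : V n → V n := χ₂ ∘ G ∘ χ₁.symm with hg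
  have hGc : Continuous G := G.continuous
  set T : Set (V n) := {x | x ∈ χ₁.target ∧ G (χ₁.symm x) ∈ χ₂.source} with hT
  have hhalf : closedBall (0 : V n) (1 / 2) ⊆ closedBall (0 : V n) 1 :=
    closedBall_subset_closedBall (by norm_num)
  have hsub1 : closedBall (0 : V n) (1 / 2) ⊆ χ₁.target := hhalf.trans hχ₁.ball
  have hsub2 : closedBall (0 : V n) (1 / 2) ⊆ χ₂.target := hhalf.trans hχ₂.ball
  set C₂ : Set N := χ₂.symm '' closedBall (0 : V n) (1 / 2) with hC₂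
  have hC₂c : IsClosed C₂ :=
    ((isCompact_closedBall _ _).image_of_continuousOn (χ₂.continuousOn_symm.mono hsub2)).isClosed
  have hcont : ContinuousOn (fun x => G (χ₁.symm x)) (closedBall (0 : V n) (1 / 2)) :=
    hGc.comp_continuousOn (χ₁.continuousOn_symm.mono hsub1)
  have hQc : IsCompact (closedBall (0 : V n) (1 / 2) ∩ (fun x => G (χ₁.symm x)) ⁻¹' C₂) := by
    refine (isCompact_closedBall (0 : V n) (1 / 2)).of_isClosed_subset ?_ inter_subset_left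
    exact hcont.preimage_isClosed_of_isClosed isClosed_closedBall hC₂c
  have hmem : ∀ x ∈ (closedBall (0 : V n) (1 / 2) ∩ (fun x => G (χ₁.symm x)) ⁻¹' C₂),
      x ∈ χ₁.target ∧ G (χ₁.symm x) ∈ χ₂.source ∧ ‖g x‖ ≤ 1 / 2 := by
    rintro x ⟨hx1, w, hw, hw2⟩
    have hwt := hsub2 hw
    simp only at hw2
    refine ⟨hsub1 hx1, ?_, ?_⟩
    · rw [← hw2]
      exact χ₂.map_target hwt
    · show ‖χ₂ (G (χ₁.symm x))‖ ≤ 1 / 2
      rw [← hw2, χ₂.right_inv hwt]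
      exact mem_closedBall_zero_iff.mp hw
  have hGx : ∀ x ∈ χ₁.target, ContinuousAt (fun x => G (χ₁.symm x)) x := fun x hx =>
    hGc.continuousAt.comp (χ₁.continuousAt_symm hx)
  obtain ⟨K, ρ, h1, h2, h3, h4⟩ := compact_good (T := T) (g := g) hQc (by
    intro x hx
    obtain ⟨a, b, -⟩ := hmem x hx
    have e1 : ∀ᶠ x' in 𝓝 x, x' ∈ χ₁.target := χ₁.open_target.mem_nhds a
    have e2 : ∀ᶠ x' in 𝓝 x, G (χ₁.symm x') ∈ χ₂.source :=
      (hGx x a).eventually (χ₂.open_source.mem_nhds b)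
    exact e1.and e2) (by
    intro x hx
    obtain ⟨a, b, -⟩ := hmem x hx
    rw [← contMDiffAt_iff_contDiffAt]
    have m1 : ContMDiffAt (𝓡 n) (𝓡 n) 2 χ₁.symm x :=
      ((contMDiffOn_symm_of_mem_maximalAtlas hχ₁.mem).contMDiffAt
        (χ₁.open_target.mem_nhds a)).of_le (by norm_cast)
    have m2 : ContMDiffAt (𝓡 n) (𝓡 n) 2 G (χ₁.symm x) :=
      (G.contMDiff.contMDiffAt).of_le
        (show ((2 : ℕ∞) : WithTop ℕ∞) ≤ (r : WithTop ℕ∞) from WithTop.coe_le_coe.mpr hr)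
    have m3 : ContMDiffAt (𝓡 n) (𝓡 n) 2 χ₂ (G (χ₁.symm x)) :=
      ((contMDiffOn_of_mem_maximalAtlas hχ₂.mem).contMDiffAt
        (χ₂.open_source.mem_nhds b)).of_le (by norm_cast)
    exact m3.comp x (m2.comp x m1)) (fun x hx => (hmem x hx).2.2)
  refine ⟨K, ρ, h1, h2, h3, ?_⟩
  intro y hy hy2 hGy hGy2
  have hyQ : χ₁ y ∈ (closedBall (0 : V n) (1 / 2) ∩ (fun x => G (χ₁.symm x)) ⁻¹' C₂) := by
    refine ⟨mem_closedBall_zero_iff.mpr hy2, χ₂ (G y), mem_closedBall_zero_iff.mpr hGy2, ?_⟩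
    show χ₂.symm (χ₂ (G y)) = G (χ₁.symm (χ₁ y))
    rw [χ₁.left_inv hy, χ₂.left_inv hGy]
  have h5 := h4 _ hyQ
  refine ⟨fun x hx => ?_, h5.tame⟩
  have h6 := h5.loc x hx
  exact ⟨h6.1.1, h6.1.2, h6.2⟩

end Pool.Agent.W451.SC
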